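import Pool.Agent.RandEefa83.General

open FirstOrder Cardinal

namespace Pool.Agent.Results.MP_eefa83_lc.NotPreserved

/-- Randomization does not preserve `κ`-stability.

If `T` is a complete theory in a countable language and `T` is not `ω`-stable, then `T^R` is not
`κ`-stable for any infinite `κ` with `κ < κ^ℵ₀`. There are such theories `T` (for instance the
theory of infinitely many independent unary predicates) which are `κ`-stable for every
`κ ≥ 2^ℵ₀`; so for every `κ` with `2^ℵ₀ ≤ κ < κ^ℵ₀` (and there are such `κ`), `κ`-stability is not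
preserved. -/
theorem result :
    (∀ (L : FirstOrder.Language.{0, 0}) (T : L.Theory), L.card ≤ ℵ₀ → T.IsComplete →
      ¬ FOStable T ℵ₀ → ∀ κ : Cardinal.{0}, ℵ₀ ≤ κ → κ < κ ^ ℵ₀ →
        ¬ CStable (randomization T) κ) ∧
    (∃ (L : FirstOrder.Language.{0, 0}) (T : L.Theory), L.card ≤ ℵ₀ ∧ T.IsComplete ∧
      ¬ FOStable T ℵ₀ ∧ (∀ κ : Cardinal.{0}, 2 ^ ℵ₀ ≤ κ → FOStable T κ) ∧
      ∀ κ : Cardinal.{0}, ℵ₀ ≤ κ → κ < κ ^ ℵ₀ → ¬ CStable (randomization T) κ) ∧
    ∃ κ : Cardinal.{0}, 2 ^ ℵ₀ ≤ κ ∧ κ < κ ^ ℵ₀ := by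
  have key : ∀ (L : FirstOrder.Language.{0, 0}) (T : L.Theory), L.card ≤ ℵ₀ → ¬ FOStable T ℵ₀ →
      ∀ κ : Cardinal.{0}, ℵ₀ ≤ κ → κ < κ ^ ℵ₀ → ¬ CStable (randomization T) κ :=
    fun L T hL hT κ h0 hκ => not_cstable_of_not_omega_stable hL hT h0 hκ
  refine ⟨fun L T hL _ hT κ h0 hκ => key L T hL hT κ h0 hκ,
    ⟨bits, bitsTheory, bits_card, FirstOrder.Language.completeTheory.isComplete _ _,
      not_fostable_bits, fun κ => fostable_bits, fun κ => not_cstable_bits⟩, exists_cardinal⟩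

end Pool.Agent.Results.MP_eefa83_lc.NotPreserved
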